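import Pool.Agent.Helper34.PM.Defs

/-!
# PM block `reduce`: from irreducible polynomials to all polynomials
-/

set_option autoImplicit false

namespace Pool.Agent.Helper64.PM

open Polynomial Finset Pool.Agent.PM

lemma mm_mul (P R : ℤ[X]) : Mm (P * R) = Mm P * Mm R := by
  unfold Mm
  rw [Polynomial.map_mul, mahlerMeasure_mul]

lemma one_le_mm {P : ℤ[X]} (hP : P ≠ 0) : 1 ≤ Mm P := one_le_mahlerMeasure_of_ne_zero hP

lemma mm_le {P : ℤ[X]} {d : ℕ} {H : ℝ} (hd : P.natDegree ≤ d)
    (hH : ∀ i, |(P.coeff i : ℝ)| ≤ H) : Mm P ≤ (d + 1) * H := by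
  unfold Mm
  refine (mahlerMeasure_le_sum_norm_coeff _).trans ?_
  rw [Polynomial.sum_over_range' _ (by simp) (d + 1)
    (lt_of_le_of_lt ((natDegree_map_le).trans hd) (Nat.lt_succ_self d))]
  calc ∑ i ∈ range (d + 1), ‖(P.map (Int.castRingHom ℂ)).coeff i‖ ≤ ∑ i ∈ range (d + 1), H := by
        refine sum_le_sum fun i _ => ?_
        rw [coeff_map, eq_intCast, Complex.norm_intCast]
        exact hH i
    _ = (d + 1) * H := by rw [sum_const, card_range, nsmul_eq_mul]; push_cast; ring

/-- products -/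
theorem reduce (h : ∃ C : ℝ, 0 < C ∧ ∀ P : ℤ[X], Irreducible P → 0 < P.natDegree →
    Real.exp (-(C * (P.natDegree + Real.log (Mm P)) ^ 10)) ≤ |aeval Real.pi P|) :
    ∃ (A : ℕ) (C : ℝ), 0 < C ∧ ∀ (d H : ℕ) (P : ℤ[X]), P ≠ 0 → P.natDegree ≤ d →
      (∀ i, |P.coeff i| ≤ H) →
      Real.exp (-(C * ((d : ℝ) + Real.log (1 + H)) ^ A)) ≤ |aeval Real.pi P| := by
  obtain ⟨C, hC, h⟩ := h
  have hφ : ∀ P : ℤ[X], P ≠ 0 → 0 ≤ (P.natDegree : ℝ) + Real.log (Mm P) := fun P hP =>
    add_nonneg (Nat.cast_nonneg _) (Real.log_nonneg (one_le_mm hP))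
  have key : ∀ P : ℤ[X], P ≠ 0 →
      Real.exp (-(C * (P.natDegree + Real.log (Mm P)) ^ 10)) ≤ |aeval Real.pi P| := by
    intro P
    induction P using WfDvdMonoid.induction_on_irreducible with
    | zero => exact fun h => absurd rfl h
    | unit u hu =>
      intro hu0
      obtain ⟨a, ha, rfl⟩ := Polynomial.isUnit_iff.mp hu
      have h1 : (1 : ℝ) ≤ |aeval Real.pi (Polynomial.C a)| := by
        rw [aeval_C, algebraMap_int_eq, eq_intCast]
        exact_mod_cast Int.one_le_abs ha.ne_zero
      refine le_trans ?_ h1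
      rw [Real.exp_le_one_iff, neg_nonpos]
      have := hφ _ hu0
      positivity
    | mul a i ha0 hi ih =>
      intro hne
      have hi0 := hi.ne_zero
      have h1 := ih ha0
      have h2 : Real.exp (-(C * (i.natDegree + Real.log (Mm i)) ^ 10)) ≤ |aeval Real.pi i| := by
        rcases Nat.eq_zero_or_pos i.natDegree with hd | hd
        · have h3 : i = Polynomial.C (i.coeff 0) := eq_C_of_natDegree_eq_zero hd
          have h4 : i.coeff 0 ≠ 0 := fun h => hi0 (by rw [h3, h, C_0])
          have h5 : (1 : ℝ) ≤ |aeval Real.pi i| := by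
            rw [h3, aeval_C, algebraMap_int_eq, eq_intCast]
            exact_mod_cast Int.one_le_abs h4
          refine le_trans ?_ h5
          rw [Real.exp_le_one_iff, neg_nonpos]
          have := hφ i hi0
          positivity
        · exact h i hi hd
      have p1 := hφ i hi0
      have p2 := hφ a ha0
      rw [natDegree_mul hi0 ha0, mm_mul, Real.log_mul (by linarith [one_le_mm hi0]) (by linarith [one_le_mm ha0]),
        map_mul, abs_mul]
      refine le_trans ?_ (mul_le_mul h2 h1 (Real.exp_nonneg _) (abs_nonneg _))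
      rw [← Real.exp_add]
      apply Real.exp_le_exp.mpr
      have h6 : ((i.natDegree : ℝ) + Real.log (Mm i)) ^ 10 + (a.natDegree + Real.log (Mm a)) ^ 10 ≤
          (((i.natDegree + a.natDegree : ℕ) : ℝ) + (Real.log (Mm i) + Real.log (Mm a))) ^ 10 := by
        have e : (((i.natDegree + a.natDegree : ℕ) : ℝ) + (Real.log (Mm i) + Real.log (Mm a))) =
            ((i.natDegree : ℝ) + Real.log (Mm i)) + (a.natDegree + Real.log (Mm a)) := by
          push_cast
          ring
        rw [e]
        exact pow_add_pow_le p1 p2 (by norm_num)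
      nlinarith [mul_le_mul_of_nonneg_left h6 hC.le]
  refine ⟨10, C * 2 ^ 10, by positivity, fun d H P hP hd hc => ?_⟩
  have hH1 : (1 : ℝ) ≤ H := by
    have : H ≠ 0 := by
      rintro rfl
      apply hP
      ext i
      have := hc i
      simpa using this
    exact_mod_cast Nat.one_le_iff_ne_zero.mpr this
  refine le_trans (Real.exp_le_exp.mpr ?_) (key P hP)
  apply neg_le_neg
  rw [mul_assoc, ← mul_pow]
  have h1 : Mm P ≤ (d + 1) * H := mm_le hd fun i => by exact_mod_cast hc i
  have h2 : Real.log (Mm P) ≤ Real.log ((d + 1) * H) := Real.log_le_log (by linarith [one_le_mm hP]) h1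
  have hd0 : (0 : ℝ) ≤ d := Nat.cast_nonneg _
  rw [Real.log_mul (by linarith) (by linarith)] at h2
  have h3 : Real.log ((d : ℝ) + 1) ≤ d := by
    have := Real.log_le_sub_one_of_pos (show (0 : ℝ) < d + 1 by linarith)
    linarith
  have h4 : Real.log (H : ℝ) ≤ Real.log (1 + H) := Real.log_le_log (by linarith) (by linarith)
  have h5 : 0 ≤ Real.log (1 + (H : ℝ)) := Real.log_nonneg (by linarith)
  have h6 : (P.natDegree : ℝ) ≤ d := by exact_mod_cast hd
  have h7 := hφ P hP
  gcongr
  linarith

end Pool.Agent.Helper64.PM
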